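import Pool.Agent.Q46.SV.Vec
import Pool.Agent.TH423.SH.FLLP
import Pool.Agent.W41.Sieve
import Pool.Agent.H474R2.PG.Rough
import Pool.Agent.Helper256.KM.Mertens

set_option autoImplicit false

/-! # The fundamental lemma of the sieve for finite families -/

namespace Pool.Agent.Q46.SV

open Finset

open Classical in
/-- transport of a finite family to the natural numbers -/
lemma transportN {ι : Type} (s : Finset ι) (hs : s.Nonempty) : ∃ (𝒜 : Finset ℕ) (ψ : ℕ → ι),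
    (∀ a ∈ 𝒜, ψ a ∈ s) ∧ ∀ P : ι → Prop, (𝒜.filter (fun a => P (ψ a))).card = (s.filter P).card := by
  obtain ⟨𝒜, ψ, h1, h2⟩ := Pool.Agent.Q46.PV.transport s hs
  obtain ⟨φ⟩ : Nonempty (ℤ ≃ ℕ) := ⟨Equiv.intEquivNat⟩
  refine ⟨𝒜.map φ.toEmbedding, fun n => ψ (φ.symm n), ?_, ?_⟩
  · intro a ha
    rw [mem_map] at ha
    obtain ⟨b, hb, rfl⟩ := ha
    simpa using h1 b hb
  · intro P
    rw [← h2 P, filter_map, card_map]
    congr 1
    refine filter_congr fun a _ => ?_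
    simp

open Classical in
/-- fundamental lemma for a finite family of any type -/
theorem fl_fam : ∃ C : ℕ, 1 ≤ C ∧ ∀ (κ b J z0 : ℕ) (P : Finset ℕ) (g : ℕ → ℝ),
  C * (κ + 1) ≤ b → C * (κ + 1) ≤ z0 → (∀ p ∈ P, p.Prime ∧ z0 < p ∧ p ≤ 2 ^ 2 ^ J) →
  (∀ p ∈ P, 0 ≤ g p ∧ g p ≤ κ / ((p : ℝ) - 1)) →
  ∀ (ι : Type) (s : Finset ι) (hit : ℕ → ι → Prop) (A : ℝ) (err : Finset ℕ → ℝ), 0 ≤ A →
    (∀ T ⊆ P, ∏ p ∈ T, p ≤ (2 ^ 2 ^ J) ^ (C * b) →
      |((s.filter (fun m => ∀ p ∈ T, hit p m)).card : ℝ) - A * ∏ p ∈ T, g p| ≤ err T) →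
    |((s.filter (fun m => ∀ p ∈ P, ¬ hit p m)).card : ℝ) - A * ∏ p ∈ P, (1 - g p)| ≤
      (1 / 2 : ℝ) ^ b * (A * ∏ p ∈ P, (1 - g p)) +
        ((J : ℝ) + 2) *
          ∑ T ∈ P.powerset.filter (fun T : Finset ℕ => ∏ p ∈ T, p ≤ (2 ^ 2 ^ J) ^ (C * b)),
            err T := by
  obtain ⟨C, hC, H⟩ := Pool.Agent.TH423.SH.fLemC
  refine ⟨C, hC, ?_⟩
  intro κ b J z0 P g hb hz hP hg ι s hit A err hA herr
  rcases s.eq_empty_or_nonempty with hs | hs
  · subst hs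
    have h1 := H κ b J z0 P g hb hz hP hg ∅ (fun _ => 1) (fun _ _ => True) A err (by simp) hA (by
      intro T hT hTl
      have := herr T hT hTl
      simpa using this)
    simpa using h1
  · obtain ⟨𝒜, ψ, -, h2⟩ := transportN s hs
    have h1 := H κ b J z0 P g hb hz hP hg 𝒜 (fun _ => 1) (fun p a => hit p (ψ a)) A err (by simp) hA (by
      intro T hT hTl
      have h3 := herr T hT hTl
      have h4 : (𝒜.filter (fun a => ∀ p ∈ T, hit p (ψ a))).card = (s.filter (fun m => ∀ p ∈ T, hit p m)).card := by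
        have := h2 (fun m => ∀ p ∈ T, hit p m)
        refine Eq.trans ?_ (this.trans ?_) <;> congr!
      rw [sum_const, nsmul_eq_mul, mul_one]
      rw [← h4] at h3
      refine le_trans (le_of_eq ?_) h3
      congr!)
    have h4 : (𝒜.filter (fun a => ∀ p ∈ P, ¬ hit p (ψ a))).card = (s.filter (fun m => ∀ p ∈ P, ¬ hit p m)).card := by
      have := h2 (fun m => ∀ p ∈ P, ¬ hit p m)
      refine Eq.trans ?_ (this.trans ?_) <;> congr!
    rw [sum_const, nsmul_eq_mul, mul_one] at h1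
    rw [← h4]
    refine le_trans (le_of_eq ?_) h1
    congr!

end Pool.Agent.Q46.SV
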