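import Pool.Agent.Q46.SV.Sieve

set_option autoImplicit false

/-! # Sieving families of integer vectors: the criterion -/

namespace Pool.Agent.Q46.SV

open Finset Filter
open Pool.Agent.H469R2.NK (e norm_e e_add)
open Pool.Agent.W41 (JJ JJ_lt JJ_le)

/-- the number of sets of primes with bounded product -/
lemma card_sets_le (P : Finset ℕ) (hP : ∀ p ∈ P, p.Prime) (Y : ℕ) :
    (P.powerset.filter (fun T : Finset ℕ => ∏ p ∈ T, p ≤ Y)).card ≤ Y := by
  have h1 : (P.powerset.filter (fun T : Finset ℕ => ∏ p ∈ T, p ≤ Y)).card ≤ (Icc 1 Y).card := by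
    apply card_le_card_of_injOn (fun T => ∏ p ∈ T, p)
    · intro T hT
      rw [mem_coe, mem_filter, mem_powerset] at hT
      rw [mem_coe, mem_Icc]
      exact ⟨Nat.one_le_iff_ne_zero.2 (prod_ne_zero_iff.2 fun p hp => (hP p (hT.1 hp)).ne_zero), hT.2⟩
    · intro T hT T' hT' he
      rw [mem_coe, mem_filter, mem_powerset] at hT hT'
      have h2 := Nat.primeFactors_prod (fun p hp => hP p (hT.1 hp))
      have h3 := Nat.primeFactors_prod (fun p hp => hP p (hT'.1 hp))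
      rw [← h2, ← h3]
      exact congrArg Nat.primeFactors he
  rwa [Nat.card_Icc, Nat.add_sub_cancel] at h1

lemma ev_final (K r : ℕ) (P0 c1 η : ℝ) (hP0 : 0 < P0) (hc1 : 0 < c1) (h0 : 0 < η) : ∀ᶠ M : ℝ in atTop,
    (4 * Real.log M + 2) * (P0 ^ (2 * r) * M ^ (-(η / 2))) ≤ c1 / (4 * P0 ^ r) / (Real.log M) ^ K := by
  have h1 := (isLittleO_log_rpow_rpow_atTop ((K : ℝ) + 1) (show (0 : ℝ) < η / 2 by positivity)).def
    (show 0 < c1 / (4 * P0 ^ r) / (6 * P0 ^ (2 * r)) by positivity)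
  filter_upwards [h1, eventually_ge_atTop (Real.exp 1)] with M h2 h3
  have hM0 : 0 < M := lt_of_lt_of_le (Real.exp_pos _) h3
  have hL : 1 ≤ Real.log M := by
    rw [Real.le_log_iff_exp_le hM0]
    exact h3
  have hL0 : 0 < Real.log M := by linarith
  have hMp : 0 < M ^ (η / 2) := Real.rpow_pos_of_pos hM0 _
  rw [Real.norm_of_nonneg (Real.rpow_nonneg hL0.le _), Real.norm_of_nonneg hMp.le] at h2
  rw [le_div_iff₀ (by positivity)]
  have e1 : (Real.log M) ^ ((K : ℝ) + 1) = (Real.log M) ^ K * Real.log M := by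
    rw [Real.rpow_add hL0, Real.rpow_natCast, Real.rpow_one]
  rw [e1] at h2
  have e2 : M ^ (-(η / 2)) = (M ^ (η / 2))⁻¹ := Real.rpow_neg hM0.le _
  rw [e2]
  have e3 : (4 * Real.log M + 2) * (P0 ^ (2 * r) * (M ^ (η / 2))⁻¹) * (Real.log M) ^ K ≤
      6 * P0 ^ (2 * r) * ((Real.log M) ^ K * Real.log M) * (M ^ (η / 2))⁻¹ := by
    have : (4 * Real.log M + 2) ≤ 6 * Real.log M := by linarith
    have h4 := mul_le_mul_of_nonneg_right this
      (show 0 ≤ P0 ^ (2 * r) * (M ^ (η / 2))⁻¹ * (Real.log M) ^ K by positivity)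
    linarith
  refine e3.trans ?_
  rw [← div_eq_mul_inv, div_le_iff₀ hMp]
  have h5 := mul_le_mul_of_nonneg_left h2 (show 0 ≤ 6 * P0 ^ (2 * r) by positivity)
  refine h5.trans (le_of_eq ?_)
  field_simp

open Classical in
/-- **the sieve for families of integer vectors** -/
theorem sieve_fam (r k : ℕ) (η : ℝ) (h0 : 0 < η) (h1 : η ≤ 1) : ∃ κ : ℝ, 0 < κ ∧ κ ≤ 1 ∧ ∃ c : ℝ, 0 < c ∧ ∀ᶠ M : ℝ in atTop,
   ∀ Om : Fin r → ℕ → Finset ℕ, (∀ j p, p.Prime → (Om j p).card ≤ k ∧ ∃ a < p, a ∉ Om j p) →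
   ∀ (ι : Type) (s : Finset ι) (v : ι → Fin r → ℤ),
    (∀ q : ℕ, 1 ≤ q → (q : ℝ) ≤ M ^ η → ∀ h : Fin r → ℕ, (∀ j, h j < q) → h ≠ 0 →
      ‖∑ i ∈ s, e (∑ j, (h j : ℝ) * (v i j / q))‖ ≤ s.card * M ^ (-η)) →
    c * s.card / (Real.log M) ^ (k * r) ≤
      ((s.filter (fun i => ∀ j, ∀ p : ℕ, p.Prime → (p : ℝ) ≤ M ^ κ → res v p i j ∉ Om j p)).card : ℝ) := by
  obtain ⟨C, hC1, hFL⟩ := fl_fam
  obtain ⟨K, hK⟩ : ∃ K : ℕ, K = k * r := ⟨_, rfl⟩
  obtain ⟨b, hb⟩ : ∃ b : ℕ, b = C * (K + 1) := ⟨_, rfl⟩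
  obtain ⟨z0, hz0⟩ : ∃ z0 : ℕ, z0 = C * (K + 1) + 3 * k + 1 := ⟨_, rfl⟩
  obtain ⟨E, hE⟩ : ∃ E : ℕ, E = C * b := ⟨_, rfl⟩
  have hb1 : 1 ≤ b := by
    rw [hb]
    exact Nat.mul_pos hC1 (by omega)
  have hE1 : 1 ≤ E := by rw [hE]; exact Nat.mul_pos hC1 hb1
  obtain ⟨c1, hc1, hprod⟩ := prod_lower k r
  obtain ⟨S0, hS0⟩ : ∃ S0 : Finset ℕ, S0 = (range (z0 + 1)).filter Nat.Prime := ⟨_, rfl⟩
  obtain ⟨P0, hP0⟩ : ∃ P0 : ℕ, P0 = ∏ p ∈ S0, p := ⟨_, rfl⟩
  have hS0p : ∀ p ∈ S0, p.Prime ∧ p ≤ z0 := by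
    intro p hp
    rw [hS0, mem_filter, mem_range] at hp
    exact ⟨hp.2, by omega⟩
  have hP01 : 1 ≤ P0 := by
    rw [hP0]
    exact Finset.prod_pos fun p hp => (hS0p p hp).1.pos
  have hP0r : (1 : ℝ) ≤ P0 := by exact_mod_cast hP01
  obtain ⟨N1, hN1⟩ : ∃ N1 : ℕ, N1 = 2 * E * (2 * r + 2) := ⟨_, rfl⟩
  have hN11 : 1 ≤ N1 := by rw [hN1]; exact Nat.mul_pos (by omega) (by omega)
  have hN1r : (1 : ℝ) ≤ N1 := by exact_mod_cast hN11
  obtain ⟨κ, hκ⟩ : ∃ κ : ℝ, κ = η / (2 * N1) := ⟨_, rfl⟩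
  have hκ0 : 0 < κ := by rw [hκ]; positivity
  have hκ1 : κ ≤ 1 := by
    rw [hκ, div_le_one (by positivity)]
    linarith
  refine ⟨κ, hκ0, hκ1, c1 / (4 * (P0 : ℝ) ^ r), by positivity, ?_⟩
  have t1 := (tendsto_rpow_atTop hκ0).eventually_ge_atTop 4
  have t2 := (tendsto_rpow_atTop (show (0 : ℝ) < η / 2 by positivity)).eventually_ge_atTop (P0 : ℝ)
  have t3 := ev_final K r P0 c1 η (by linarith) hc1 h0
  filter_upwards [t1, t2, t3, eventually_ge_atTop (Real.exp 1)] with M u1 u2 u3 u4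
  intro Om hOm ι s v hS
  have hM0 : 0 < M := lt_of_lt_of_le (Real.exp_pos _) u4
  have hM1 : 1 ≤ M := by
    have := Real.add_one_le_exp (1 : ℝ)
    linarith
  have hL1 : 1 ≤ Real.log M := by
    rw [Real.le_log_iff_exp_le hM0]
    exact u4
  have hL0 : 0 < Real.log M := by linarith
  have hmono : ∀ x y : ℝ, x ≤ y → M ^ x ≤ M ^ y := fun x y h => Real.rpow_le_rpow_of_exponent_le hM1 h
  choose! a ha using fun (j : Fin r) (p : ℕ) (hp : p.Prime) => (hOm j p hp).2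
  obtain ⟨y, hy⟩ : ∃ y : ℕ, y = ⌊M ^ κ⌋₊ := ⟨_, rfl⟩
  have hyM : (y : ℝ) ≤ M ^ κ := by rw [hy]; exact Nat.floor_le (by positivity)
  have hy4 : 4 ≤ y := by
    rw [hy]
    exact Nat.le_floor (by exact_mod_cast u1)
  have hyr : (4 : ℝ) ≤ y := by exact_mod_cast hy4
  have hyM1 : (y : ℝ) ≤ M := hyM.trans (by
    have := hmono κ 1 hκ1
    rwa [Real.rpow_one] at this)
  obtain ⟨P, hP⟩ : ∃ P : Finset ℕ, P = (Icc 1 y).filter (fun p => p.Prime ∧ z0 < p) := ⟨_, rfl⟩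
  have hPm : ∀ p ∈ P, p.Prime ∧ z0 < p ∧ p ≤ y := by
    intro p hp
    rw [hP, mem_filter, mem_Icc] at hp
    exact ⟨hp.2.1, hp.2.2, hp.1.2⟩
  obtain ⟨J, hJ⟩ : ∃ J : ℕ, J = JJ y := ⟨_, rfl⟩
  have hyJ : y < 2 ^ 2 ^ J := by rw [hJ]; exact JJ_lt y
  have hJy : 2 ^ 2 ^ J ≤ y ^ 2 := by rw [hJ]; exact JJ_le y (by omega)
  set D : ℕ := (2 ^ 2 ^ J) ^ (C * b) with hD
  have hD1 : 1 ≤ D := Nat.one_le_pow _ _ (by positivity)
  have hDr1 : (1 : ℝ) ≤ D := by exact_mod_cast hD1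
  have hDM : (D : ℝ) ^ (2 * r + 2) ≤ M ^ (η / 2) := by
    have e1 : (D : ℝ) ≤ (M ^ κ) ^ (2 * E) := by
      have e2 : D ≤ y ^ (2 * E) := by
        rw [hD, ← hE, pow_mul]
        exact Nat.pow_le_pow_left hJy _
      have e3 : (D : ℝ) ≤ (y : ℝ) ^ (2 * E) := by exact_mod_cast e2
      exact e3.trans (pow_le_pow_left₀ (Nat.cast_nonneg _) hyM _)
    have e2 : (D : ℝ) ^ (2 * r + 2) ≤ ((M ^ κ) ^ (2 * E)) ^ (2 * r + 2) :=
      pow_le_pow_left₀ (Nat.cast_nonneg _) e1 _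
    refine e2.trans (le_of_eq ?_)
    rw [← pow_mul, ← Real.rpow_natCast, ← Real.rpow_mul hM0.le]
    congr 1
    have e3 : ((2 * E * (2 * r + 2) : ℕ) : ℝ) = N1 := by rw [hN1]
    rw [e3, hκ]
    field_simp
  have hDM1 : (D : ℝ) ≤ M ^ (η / 2) := (le_self_pow₀ hDr1 (by omega)).trans hDM
  -- the family with the prescribed residues modulo the small primes
  set Bd : ℕ → Finset (Fin r → ℕ) := fun p => if p ≤ z0 then {fun j => a j p} else BadV Om p with hBd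
  have hBdlt : ∀ p : ℕ, p.Prime → ∀ b ∈ Bd p, ∀ j, b j < p := by
    intro p hp b' hb' j
    simp only [hBd] at hb'
    split_ifs at hb' with h
    · rw [mem_singleton] at hb'
      rw [hb']
      exact (ha j p hp).1
    · exact BadV_lt Om p b' hb' j
  set s' : Finset ι := s.filter (fun i => ∀ p ∈ S0, res v p i ∈ Bd p) with hs'
  set g : ℕ → ℝ := fun p => ((BadV Om p).card : ℝ) / (p : ℝ) ^ r with hg
  set A : ℝ := s.card / (P0 : ℝ) ^ r with hA
  have hA0 : 0 ≤ A := by positivity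
  set E0 : ℝ := s.card * M ^ (-η) with hE0
  have hE00 : 0 ≤ E0 := by positivity
  have hcount : ∀ T ⊆ P, ∏ p ∈ T, p ≤ D →
      |((s'.filter (fun i => ∀ p ∈ T, res v p i ∈ BadV Om p)).card : ℝ) - A * ∏ p ∈ T, g p| ≤
        ((P0 : ℝ) * D) ^ (2 * r) * E0 := by
    intro T hT hTD
    have hdisj : Disjoint S0 T := by
      rw [Finset.disjoint_left]
      intro p hp hp'
      have := (hS0p p hp).2
      have := (hPm p (hT hp')).2.1
      omega
    have hSp : ∀ p ∈ S0 ∪ T, p.Prime := by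
      intro p hp
      rw [mem_union] at hp
      rcases hp with hp | hp
      · exact (hS0p p hp).1
      · exact (hPm p (hT hp)).1
    have hq : ∏ p ∈ S0 ∪ T, p = P0 * ∏ p ∈ T, p := by rw [prod_union hdisj, hP0]
    have hT1 : 1 ≤ ∏ p ∈ T, p := Finset.prod_pos fun p hp => (hPm p (hT hp)).1.pos
    have hq1 : 1 ≤ ∏ p ∈ S0 ∪ T, p := by rw [hq]; exact Nat.mul_pos hP01 hT1
    have hqD : ((∏ p ∈ S0 ∪ T, p : ℕ) : ℝ) ≤ P0 * D := by
      rw [hq]
      exact_mod_cast Nat.mul_le_mul_left _ hTD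
    have hqM : ((∏ p ∈ S0 ∪ T, p : ℕ) : ℝ) ≤ M ^ η := by
      refine hqD.trans ?_
      have e1 : M ^ η = M ^ (η / 2) * M ^ (η / 2) := by
        rw [← Real.rpow_add hM0]
        congr 1
        ring
      rw [e1]
      exact mul_le_mul u2 hDM1 (by positivity) (by positivity)
    have key := vec_count' s v (S0 ∪ T) hSp E0 hE00 (fun h hh hh0 => hS _ hq1 hqM h hh hh0) Bd
      (fun p hp => hBdlt p (hSp p hp))
    have e1 : s.filter (fun i => ∀ p ∈ S0 ∪ T, res v p i ∈ Bd p) =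
        s'.filter (fun i => ∀ p ∈ T, res v p i ∈ BadV Om p) := by
      rw [hs', filter_filter]
      refine filter_congr fun i _ => ?_
      constructor
      · intro h
        refine ⟨fun p hp => h p (mem_union_left _ hp), fun p hp => ?_⟩
        have h2 := h p (mem_union_right _ hp)
        simp only [hBd] at h2
        rwa [if_neg (by have := (hPm p (hT hp)).2.1; omega)] at h2
      · rintro ⟨h1, h2⟩ p hp
        rw [mem_union] at hp
        rcases hp with hp | hp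
        · exact h1 p hp
        · simp only [hBd]
          rw [if_neg (by have := (hPm p (hT hp)).2.1; omega)]
          exact h2 p hp
    have e2 : (s.card : ℝ) * ∏ p ∈ S0 ∪ T, ((Bd p).card : ℝ) / (p : ℝ) ^ r = A * ∏ p ∈ T, g p := by
      rw [prod_union hdisj]
      have e3 : ∏ p ∈ S0, ((Bd p).card : ℝ) / (p : ℝ) ^ r = 1 / (P0 : ℝ) ^ r := by
        have e4 : ((P0 : ℕ) : ℝ) ^ r = ∏ p ∈ S0, (p : ℝ) ^ r := by
          rw [hP0]
          push_cast
          rw [prod_pow]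
        rw [e4, one_div, ← prod_inv_distrib]
        refine prod_congr rfl fun p hp => ?_
        simp only [hBd]
        rw [if_pos (hS0p p hp).2, card_singleton, Nat.cast_one, one_div]
      have e4 : ∏ p ∈ T, ((Bd p).card : ℝ) / (p : ℝ) ^ r = ∏ p ∈ T, g p := by
        refine prod_congr rfl fun p hp => ?_
        simp only [hBd, hg]
        rw [if_neg (by have := (hPm p (hT hp)).2.1; omega)]
      rw [e3, e4, hA]
      ring
    rw [e2] at key
    have e3 : |((s'.filter (fun i => ∀ p ∈ T, res v p i ∈ BadV Om p)).card : ℝ) - A * ∏ p ∈ T, g p| ≤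
        ((∏ p ∈ S0 ∪ T, p : ℕ) : ℝ) ^ (2 * r) * E0 := by
      rw [← e1]
      refine le_trans (le_of_eq ?_) key
      congr!
    refine e3.trans (mul_le_mul_of_nonneg_right ?_ hE00)
    exact pow_le_pow_left₀ (Nat.cast_nonneg _) hqD _
  -- the densities
  have hgb : ∀ p ∈ P, (1 - (k : ℝ) / p) ^ r ≤ 1 - g p := by
    intro p hp
    obtain ⟨h2, h3, -⟩ := hPm p hp
    exact BadV_card Om p h2.pos (fun j => (hOm j p h2).1) (by omega)
  have hg0 : ∀ p, 0 ≤ g p := fun p => by simp only [hg]; positivity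
  have hgu : ∀ p ∈ P, 0 ≤ g p ∧ g p ≤ (K : ℝ) / ((p : ℝ) - 1) := by
    intro p hp
    refine ⟨hg0 p, ?_⟩
    obtain ⟨h2, h3, -⟩ := hPm p hp
    have hp2 : (2 : ℝ) ≤ p := by exact_mod_cast h2.two_le
    have hkp : (k : ℝ) ≤ p := by exact_mod_cast (by omega : k ≤ p)
    have h4 := hgb p hp
    have h5 := one_add_mul_le_pow (show (-2 : ℝ) ≤ -((k : ℝ) / p) by
      have : (k : ℝ) / p ≤ 1 := (div_le_one (by linarith)).2 hkp
      linarith) r
    have h6 : g p ≤ r * ((k : ℝ) / p) := by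
      have e1 : (1 + -((k : ℝ) / p)) = 1 - (k : ℝ) / p := by ring
      rw [e1] at h5
      linarith
    refine h6.trans ?_
    have e1 : (r : ℝ) * ((k : ℝ) / p) = K / p := by
      rw [hK]
      push_cast
      ring
    rw [e1]
    exact div_le_div_of_nonneg_left (Nat.cast_nonneg _) (by linarith) (by linarith)
  have hFL2 : |((s'.filter (fun i => ∀ p ∈ P, ¬ res v p i ∈ BadV Om p)).card : ℝ) - A * ∏ p ∈ P, (1 - g p)| ≤
      (1 / 2 : ℝ) ^ b * (A * ∏ p ∈ P, (1 - g p)) +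
        ((J : ℝ) + 2) *
          ∑ T ∈ P.powerset.filter (fun T : Finset ℕ => ∏ p ∈ T, p ≤ (2 ^ 2 ^ J) ^ (C * b)),
            ((P0 : ℝ) * D) ^ (2 * r) * E0 := by
    have h2 := hFL K b J z0 P g hb.ge (by rw [hz0]; omega)
      (fun p hp => ⟨(hPm p hp).1, (hPm p hp).2.1, (hPm p hp).2.2.trans hyJ.le⟩) hgu ι s'
      (fun p i => res v p i ∈ BadV Om p) A (fun _ => ((P0 : ℝ) * D) ^ (2 * r) * E0) hA0
      (fun T hT hTD => by
        refine le_trans (le_of_eq ?_) (hcount T hT hTD)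
        congr!)
    refine le_trans (le_of_eq ?_) h2
    congr!
  -- the error term
  have hJ4 : (J : ℝ) + 2 ≤ 4 * Real.log M + 2 := by
    have e1 : (J : ℝ) ≤ 2 ^ J := by
      exact_mod_cast (Nat.lt_two_pow_self).le
    have e2 : (2 : ℝ) ^ J * Real.log 2 ≤ 2 * Real.log M := by
      have e3 : ((2 : ℝ)) ^ (2 ^ J) ≤ M ^ 2 := by
        have e4 : ((2 ^ 2 ^ J : ℕ) : ℝ) ≤ ((y ^ 2 : ℕ) : ℝ) := by exact_mod_cast hJy
        push_cast at e4
        exact e4.trans (pow_le_pow_left₀ (Nat.cast_nonneg _) hyM1 _)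
      have e5 := Real.log_le_log (by positivity) e3
      rw [Real.log_pow, Real.log_pow] at e5
      push_cast at e5
      exact e5
    have e6 : (1 : ℝ) / 2 ≤ Real.log 2 := by
      have := Real.log_two_gt_d9
      linarith
    have e7 : (0 : ℝ) < 2 ^ J := by positivity
    nlinarith
  have herr : ((J : ℝ) + 2) * ∑ T ∈ P.powerset.filter (fun T : Finset ℕ => ∏ p ∈ T, p ≤ D),
      ((P0 : ℝ) * D) ^ (2 * r) * E0 ≤ (c1 / (4 * (P0 : ℝ) ^ r) / (Real.log M) ^ K) * s.card := by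
    rw [sum_const, nsmul_eq_mul]
    have e1 : ((P.powerset.filter (fun T : Finset ℕ => ∏ p ∈ T, p ≤ D)).card : ℝ) ≤ D := by
      exact_mod_cast card_sets_le P (fun p hp => (hPm p hp).1) D
    have e2 : ((P.powerset.filter (fun T : Finset ℕ => ∏ p ∈ T, p ≤ D)).card : ℝ) *
        (((P0 : ℝ) * D) ^ (2 * r) * E0) ≤ (P0 : ℝ) ^ (2 * r) * M ^ (-(η / 2)) * s.card := by
      calc _ ≤ (D : ℝ) * (((P0 : ℝ) * D) ^ (2 * r) * E0) := mul_le_mul_of_nonneg_right e1 (by positivity)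
        _ = (P0 : ℝ) ^ (2 * r) * (D : ℝ) ^ (2 * r + 1) * (s.card * M ^ (-η)) := by
            rw [mul_pow, pow_succ (D : ℝ)]
            ring
        _ ≤ (P0 : ℝ) ^ (2 * r) * M ^ (η / 2) * (s.card * M ^ (-η)) := by
            apply mul_le_mul_of_nonneg_right _ hE00
            apply mul_le_mul_of_nonneg_left _ (by positivity)
            exact (pow_le_pow_right₀ hDr1 (by omega)).trans hDM
        _ = (P0 : ℝ) ^ (2 * r) * (M ^ (η / 2) * M ^ (-η)) * s.card := by ring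
        _ = _ := by
            rw [← Real.rpow_add hM0]
            congr 3
            ring
    have e3 := mul_le_mul hJ4 e2 (by positivity) (by linarith)
    refine e3.trans ?_
    have e4 := mul_le_mul_of_nonneg_right u3 (Nat.cast_nonneg (α := ℝ) s.card)
    linarith
  -- the main term
  have hmain : c1 / (Real.log M) ^ K ≤ ∏ p ∈ P, (1 - g p) := by
    have e1 := hprod y (by omega) P (fun p hp => ⟨(hPm p hp).1, by
      have := (hPm p hp).2.1
      omega, (hPm p hp).2.2⟩)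
    have e2 : ∏ p ∈ P, (1 - (k : ℝ) / p) ^ r ≤ ∏ p ∈ P, (1 - g p) := by
      apply prod_le_prod _ hgb
      intro p hp
      apply pow_nonneg
      have hkp : (k : ℝ) ≤ p := by exact_mod_cast (by have := (hPm p hp).2.1; omega : k ≤ p)
      have hp0 : (0 : ℝ) < p := by exact_mod_cast (hPm p hp).1.pos
      have : (k : ℝ) / p ≤ 1 := (div_le_one hp0).2 hkp
      linarith
    refine le_trans ?_ (e1.trans e2)
    rw [← hK]
    apply div_le_div_of_nonneg_left hc1.le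
    · apply pow_pos
      exact Real.log_pos (by linarith)
    · apply pow_le_pow_left₀ (Real.log_nonneg (by linarith))
      exact Real.log_le_log (by linarith) hyM1
  have hmain0 : 0 < c1 / (Real.log M) ^ K := by positivity
  have hhalf : (1 / 2 : ℝ) ^ b ≤ 1 / 2 := by
    calc (1 / 2 : ℝ) ^ b ≤ (1 / 2 : ℝ) ^ 1 := pow_le_pow_of_le_one (by norm_num) (by norm_num) hb1
      _ = 1 / 2 := by norm_num
  have hsub : s'.filter (fun i => ∀ p ∈ P, ¬ res v p i ∈ BadV Om p) ⊆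
      s.filter (fun i => ∀ j, ∀ p : ℕ, p.Prime → (p : ℝ) ≤ M ^ κ → res v p i j ∉ Om j p) := by
    intro i hi
    rw [mem_filter, hs', mem_filter] at hi
    rw [mem_filter]
    refine ⟨hi.1.1, fun j p hp hpM => ?_⟩
    by_cases hpz : p ≤ z0
    · have h2 := hi.1.2 p (by rw [hS0, mem_filter, mem_range]; exact ⟨by omega, hp⟩)
      simp only [hBd] at h2
      rw [if_pos hpz, mem_singleton] at h2
      rw [h2]
      exact (ha j p hp).2
    · have hpP : p ∈ P := by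
        rw [hP, mem_filter, mem_Icc]
        refine ⟨⟨hp.pos, ?_⟩, hp, by omega⟩
        rw [hy]
        exact Nat.le_floor hpM
      intro hmem
      apply hi.2 p hpP
      unfold BadV
      rw [mem_filter, Fintype.mem_piFinset]
      refine ⟨fun j' => ?_, j, hmem⟩
      rw [mem_range]
      unfold res
      have hpz' : (0 : ℤ) < p := by exact_mod_cast hp.pos
      have := Int.emod_lt_of_pos (v i j') hpz'
      have := Int.emod_nonneg (v i j') hpz'.ne'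
      omega
  have hfin : ((s'.filter (fun i => ∀ p ∈ P, ¬ res v p i ∈ BadV Om p)).card : ℝ) ≤
      ((s.filter (fun i => ∀ j, ∀ p : ℕ, p.Prime → (p : ℝ) ≤ M ^ κ → res v p i j ∉ Om j p)).card : ℝ) := by
    exact_mod_cast card_le_card hsub
  refine le_trans ?_ hfin
  have h9 := (abs_le.1 hFL2).1
  have hX : 0 ≤ A * ∏ p ∈ P, (1 - g p) := mul_nonneg hA0 (hmain0.le.trans hmain)
  have h10 : (1 / 2 : ℝ) ^ b * (A * ∏ p ∈ P, (1 - g p)) ≤ 1 / 2 * (A * ∏ p ∈ P, (1 - g p)) :=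
    mul_le_mul_of_nonneg_right hhalf hX
  have h11 : A * (c1 / (Real.log M) ^ K) ≤ A * ∏ p ∈ P, (1 - g p) := mul_le_mul_of_nonneg_left hmain hA0
  have h12 : A * (c1 / (Real.log M) ^ K) = 4 * ((c1 / (4 * (P0 : ℝ) ^ r) / (Real.log M) ^ K) * s.card) := by
    rw [hA]
    field_simp
  have h13 : c1 / (4 * (P0 : ℝ) ^ r) * s.card / (Real.log M) ^ (k * r) =
      (c1 / (4 * (P0 : ℝ) ^ r) / (Real.log M) ^ K) * s.card := by
    rw [← hK]
    ring
  rw [h13]
  have h14 : ((J : ℝ) + 2) * ∑ T ∈ P.powerset.filter (fun T : Finset ℕ => ∏ p ∈ T, p ≤ (2 ^ 2 ^ J) ^ (C * b)),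
      ((P0 : ℝ) * D) ^ (2 * r) * E0 ≤ (c1 / (4 * (P0 : ℝ) ^ r) / (Real.log M) ^ K) * s.card := herr
  linarith

end Pool.Agent.Q46.SV
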