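import Pool.Agent.Q46.SV.FL

set_option autoImplicit false

/-! # Sieving families of integer vectors whose exponential sums at the small rationals save a power -/

namespace Pool.Agent.Q46.SV

open Finset Filter
open Pool.Agent.H469R2.NK (e norm_e e_add)
open Pool.Agent.W41 (JJ JJ_lt JJ_le)

lemma exp_le_one_sub {x : ℝ} (h0 : 0 ≤ x) (h1 : x ≤ 1 / 3) : Real.exp (-(x + x ^ 2)) ≤ 1 - x := by
  have h2 := Real.quadratic_le_exp_of_nonneg (show 0 ≤ x + x ^ 2 by positivity)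
  have h3 : 1 ≤ (1 - x) * Real.exp (x + x ^ 2) := by
    have h4 : (1 - x) * (1 + (x + x ^ 2) + (x + x ^ 2) ^ 2 / 2) ≤ (1 - x) * Real.exp (x + x ^ 2) :=
      mul_le_mul_of_nonneg_left h2 (by linarith)
    refine le_trans ?_ h4
    have : (1 - x) * (1 + (x + x ^ 2) + (x + x ^ 2) ^ 2 / 2) - 1 =
        x ^ 2 * (1 / 2 * (1 - x) * (1 + x) ^ 2 - x) := by ring
    have h5 : 0 ≤ 1 / 2 * (1 - x) * (1 + x) ^ 2 - x := by nlinarith [mul_nonneg h0 h0]
    have h6 : 0 ≤ x ^ 2 * (1 / 2 * (1 - x) * (1 + x) ^ 2 - x) := by positivity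
    linarith
  rw [Real.exp_neg]
  rw [inv_eq_one_div, div_le_iff₀ (Real.exp_pos _)]
  exact h3

/-- Mertens' lower bound for the density of the sifted set -/
lemma prod_lower (k r : ℕ) : ∃ c : ℝ, 0 < c ∧ ∀ y : ℕ, 3 ≤ y → ∀ P : Finset ℕ,
    (∀ p ∈ P, p.Prime ∧ 3 * k ≤ p ∧ p ≤ y) →
    c / (Real.log y) ^ (k * r) ≤ ∏ p ∈ P, (1 - (k : ℝ) / p) ^ r := by
  obtain ⟨C, hC⟩ := Pool.Agent.Helper256.KM.mertens_inv
  refine ⟨Real.exp (-(r * (k * |C| + k ^ 2))), Real.exp_pos _, ?_⟩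
  intro y hy P hP
  have hy3 : (3 : ℝ) ≤ y := by exact_mod_cast hy
  have hly : 0 < Real.log y := Real.log_pos (by linarith)
  have hp0 : ∀ p ∈ P, (0 : ℝ) < p := fun p hp => by exact_mod_cast (hP p hp).1.pos
  have h1 : ∀ p ∈ P, Real.exp (-((k : ℝ) / p + ((k : ℝ) / p) ^ 2)) ^ r ≤ (1 - (k : ℝ) / p) ^ r := by
    intro p hp
    apply pow_le_pow_left₀ (Real.exp_pos _).le
    apply exp_le_one_sub
    · exact div_nonneg (Nat.cast_nonneg _) (hp0 p hp).le
    · rw [div_le_div_iff₀ (hp0 p hp) (by norm_num)]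
      have : ((3 * k : ℕ) : ℝ) ≤ p := by exact_mod_cast (hP p hp).2.1
      push_cast at this
      linarith
  refine le_trans ?_ (prod_le_prod (fun p _ => (pow_nonneg (Real.exp_pos _).le _)) h1)
  have h2 : ∏ p ∈ P, Real.exp (-((k : ℝ) / p + ((k : ℝ) / p) ^ 2)) ^ r =
      Real.exp (-(r * (∑ p ∈ P, ((k : ℝ) / p + ((k : ℝ) / p) ^ 2)))) := by
    rw [prod_pow, ← Real.exp_sum, ← Real.exp_nat_mul, sum_neg_distrib]
    congr 1
    ring
  rw [h2]
  have h3 : ∑ p ∈ P, (1 : ℝ) / p ≤ Real.log (Real.log y) + |C| := by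
    have h4 := (abs_le.1 (hC y hy)).2
    have h5 : ∑ p ∈ P, (1 : ℝ) / p ≤ ∑ p ∈ (Icc 1 y).filter Nat.Prime, (1 : ℝ) / p := by
      apply sum_le_sum_of_subset_of_nonneg
      · intro p hp
        rw [mem_filter, mem_Icc]
        exact ⟨⟨(hP p hp).1.pos, (hP p hp).2.2⟩, (hP p hp).1⟩
      · intro p _ _
        positivity
    have h6 := le_abs_self C
    linarith
  have h4 : ∑ p ∈ P, ((p : ℝ) ^ 2)⁻¹ ≤ 1 :=
    Pool.Agent.H474R2.PG.RoughAux.sum_inv_sq_le (fun p hp => (hP p hp).1.two_le)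
  have h5 : ∑ p ∈ P, ((k : ℝ) / p + ((k : ℝ) / p) ^ 2) ≤ k * (Real.log (Real.log y) + |C|) + k ^ 2 := by
    rw [sum_add_distrib]
    have e1 : ∑ p ∈ P, (k : ℝ) / p = k * ∑ p ∈ P, (1 : ℝ) / p := by
      rw [mul_sum]
      exact sum_congr rfl fun p _ => by ring
    have e2 : ∑ p ∈ P, ((k : ℝ) / p) ^ 2 = (k : ℝ) ^ 2 * ∑ p ∈ P, ((p : ℝ) ^ 2)⁻¹ := by
      rw [mul_sum]
      exact sum_congr rfl fun p _ => by rw [div_pow, div_eq_mul_inv]
    rw [e1, e2]
    have e3 : (k : ℝ) * ∑ p ∈ P, (1 : ℝ) / p ≤ k * (Real.log (Real.log y) + |C|) :=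
      mul_le_mul_of_nonneg_left h3 (Nat.cast_nonneg _)
    have e4 : (k : ℝ) ^ 2 * ∑ p ∈ P, ((p : ℝ) ^ 2)⁻¹ ≤ (k : ℝ) ^ 2 * 1 :=
      mul_le_mul_of_nonneg_left h4 (by positivity)
    linarith
  have h6 : (Real.log y) ^ (k * r) = Real.exp (r * (k * Real.log (Real.log y))) := by
    have : (r : ℝ) * (k * Real.log (Real.log y)) = ((k * r : ℕ) : ℝ) * Real.log (Real.log y) := by
      push_cast
      ring
    rw [this, Real.exp_nat_mul, Real.exp_log hly]
  rw [h6, ← Real.exp_sub]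
  apply Real.exp_le_exp.2
  have h7 : (r : ℝ) * ∑ p ∈ P, ((k : ℝ) / p + ((k : ℝ) / p) ^ 2) ≤
      r * (k * (Real.log (Real.log y) + |C|) + k ^ 2) := mul_le_mul_of_nonneg_left h5 (Nat.cast_nonneg _)
  nlinarith

open Classical in
/-- the vectors of residues modulo `p` one of whose coordinates is in the given set -/
noncomputable def BadV {r : ℕ} (Om : Fin r → ℕ → Finset ℕ) (p : ℕ) : Finset (Fin r → ℕ) :=
  (Fintype.piFinset (fun _ : Fin r => range p)).filter (fun b => ∃ j, b j ∈ Om j p)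

lemma BadV_lt {r : ℕ} (Om : Fin r → ℕ → Finset ℕ) (p : ℕ) : ∀ b ∈ BadV Om p, ∀ j, b j < p := by
  classical
  intro b hb j
  unfold BadV at hb
  rw [mem_filter, Fintype.mem_piFinset] at hb
  exact mem_range.1 (hb.1 j)

lemma BadV_card {r k : ℕ} (Om : Fin r → ℕ → Finset ℕ) (p : ℕ) (hp : 0 < p) (hk : ∀ j, (Om j p).card ≤ k)
    (hkp : k ≤ p) : (1 - (k : ℝ) / p) ^ r ≤ 1 - ((BadV Om p).card : ℝ) / (p : ℝ) ^ r := by
  classical
  have hpr : (0 : ℝ) < p := by exact_mod_cast hp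
  have h1 : Fintype.piFinset (fun j : Fin r => (range p).filter (fun a => a ∉ Om j p)) ⊆
      (Fintype.piFinset (fun _ : Fin r => range p)) \ BadV Om p := by
    intro b hb
    rw [Fintype.mem_piFinset] at hb
    unfold BadV
    rw [Finset.mem_sdiff, Fintype.mem_piFinset, mem_filter, Fintype.mem_piFinset]
    refine ⟨fun j => (mem_filter.1 (hb j)).1, ?_⟩
    rintro ⟨-, j, hj⟩
    exact (mem_filter.1 (hb j)).2 hj
  have h2 : BadV Om p ⊆ Fintype.piFinset (fun _ : Fin r => range p) := filter_subset _ _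
  have h3 := card_le_card h1
  rw [card_sdiff_of_subset h2, Fintype.card_piFinset, Fintype.card_piFinset] at h3
  simp only [card_range, prod_const, card_univ, Fintype.card_fin] at h3
  have h4 : (BadV Om p).card ≤ p ^ r := by
    have := card_le_card h2
    rw [Fintype.card_piFinset] at this
    simpa using this
  have h5 : ∀ j : Fin r, (p : ℝ) - k ≤ (((range p).filter (fun a => a ∉ Om j p)).card : ℝ) := by
    intro j
    have e1 := card_filter_add_card_filter_not (s := range p) (fun a => a ∈ Om j p)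
    have e2 : ((range p).filter (fun a => a ∈ Om j p)).card ≤ k := by
      refine (card_le_card ?_).trans (hk j)
      intro a ha
      exact (mem_filter.1 ha).2
    rw [card_range] at e1
    have e3 : p ≤ k + ((range p).filter (fun a => a ∉ Om j p)).card := by omega
    have e4 : (p : ℝ) ≤ (k : ℝ) + (((range p).filter (fun a => a ∉ Om j p)).card : ℝ) := by exact_mod_cast e3
    linarith
  have hkpr : (k : ℝ) ≤ p := by exact_mod_cast hkp
  have h6 : ((p : ℝ) - k) ^ r ≤ (p : ℝ) ^ r - (BadV Om p).card := by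
    have e1 : ((p : ℝ) - k) ^ r ≤ ∏ j : Fin r, (((range p).filter (fun a => a ∉ Om j p)).card : ℝ) := by
      have : ((p : ℝ) - k) ^ r = ∏ _j : Fin r, ((p : ℝ) - k) := by
        rw [prod_const, card_univ, Fintype.card_fin]
      rw [this]
      exact prod_le_prod (fun _ _ => by linarith) fun j _ => h5 j
    have e2 : ((∏ j : Fin r, ((range p).filter (fun a => a ∉ Om j p)).card : ℕ) : ℝ) ≤
        ((p ^ r - (BadV Om p).card : ℕ) : ℝ) := by exact_mod_cast h3
    rw [Nat.cast_sub h4] at e2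
    push_cast at e2
    exact e1.trans e2
  have h7 : (1 - (k : ℝ) / p) ^ r = ((p : ℝ) - k) ^ r / (p : ℝ) ^ r := by
    rw [← div_pow]
    congr 1
    field_simp
  have h8 : 1 - ((BadV Om p).card : ℝ) / (p : ℝ) ^ r = ((p : ℝ) ^ r - (BadV Om p).card) / (p : ℝ) ^ r := by
    rw [sub_div, div_self (by positivity)]
  rw [h7, h8]
  exact div_le_div_of_nonneg_right h6 (by positivity)

end Pool.Agent.Q46.SV
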