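import Pool.Agent.Q46.PV.Vec

set_option autoImplicit false

/-! # Counting the members of a family of integer vectors with conditions on the vector modulo several primes -/

namespace Pool.Agent.Q46.SV

open Finset
open Pool.Agent.H469R2.NK (e norm_e e_add)

/-- the vector of the least residues -/
def res {ι : Type} {r : ℕ} (v : ι → Fin r → ℤ) (p : ℕ) (i : ι) : Fin r → ℕ := fun j => ((v i j) % (p : ℤ)).toNat

lemma res_iff {ι : Type} {r : ℕ} (v : ι → Fin r → ℤ) (p : ℕ) (hp : 0 < p) (i : ι) (b : Fin r → ℕ)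
    (hb : ∀ j, b j < p) : res v p i = b ↔ ∀ j, (p : ℤ) ∣ v i j - b j := by
  have hpz : (0 : ℤ) < p := by exact_mod_cast hp
  constructor
  · rintro rfl j
    unfold res
    rw [Int.toNat_of_nonneg (Int.emod_nonneg _ hpz.ne')]
    exact Int.dvd_self_sub_emod
  · intro h
    funext j
    unfold res
    have h1 : (v i j) % (p : ℤ) = (b j : ℤ) % (p : ℤ) := (Int.modEq_iff_dvd.2 (h j)).symm
    rw [h1, Int.emod_eq_of_lt (by positivity) (by exact_mod_cast hb j)]
    simp

open Classical in
/-- conditions for the whole vector modulo each prime -/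
theorem vec_count' {ι : Type} {r : ℕ} (s : Finset ι) (v : ι → Fin r → ℤ) (S : Finset ℕ)
    (hS : ∀ p ∈ S, p.Prime) (E0 : ℝ) (hE0 : 0 ≤ E0)
    (hE : ∀ h : Fin r → ℕ, (∀ j, h j < ∏ p ∈ S, p) → h ≠ 0 →
      ‖∑ i ∈ s, e (∑ j, (h j : ℝ) * (v i j / ((∏ p ∈ S, p : ℕ) : ℝ)))‖ ≤ E0)
    (Bad : ℕ → Finset (Fin r → ℕ)) (hBad : ∀ p ∈ S, ∀ b ∈ Bad p, ∀ j, b j < p) :
    |((s.filter (fun i => ∀ p ∈ S, res v p i ∈ Bad p)).card : ℝ) -
      s.card * ∏ p ∈ S, ((Bad p).card : ℝ) / (p : ℝ) ^ r| ≤ ((∏ p ∈ S, p : ℕ) : ℝ) ^ (2 * r) * E0 := by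
  set q : ℕ := ∏ p ∈ S, p with hq
  have hq1 : 1 ≤ q := Finset.prod_pos fun p hp => (hS p hp).pos
  set G := S.pi (fun p => Bad p) with hG
  set F : ι → (p : ℕ) → p ∈ S → (Fin r → ℕ) := fun i p _ => res v p i with hF
  have hFG : ∀ i, (∀ p ∈ S, res v p i ∈ Bad p) ↔ F i ∈ G := by
    intro i
    rw [hG, Finset.mem_pi]
  have h1 : (s.filter (fun i => ∀ p ∈ S, res v p i ∈ Bad p)).card =
      ∑ c ∈ G, (s.filter (fun i => ∀ j, ∀ p ∈ S, (p : ℤ) ∣ v i j -
        (if h : p ∈ S then ((c p h j : ℕ) : ℤ) else 0))).card := by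
    rw [filter_congr (fun i _ => hFG i)]
    rw [card_eq_sum_card_fiberwise (s := s.filter (fun i => F i ∈ G)) (f := F) (t := G)
      (fun i hi => (mem_filter.1 (mem_coe.1 hi)).2)]
    refine sum_congr rfl fun c hc => ?_
    congr 1
    rw [filter_filter]
    refine filter_congr fun i _ => ?_
    rw [hG, Finset.mem_pi] at hc
    constructor
    · rintro ⟨-, h2⟩ j p hp
      rw [dif_pos hp]
      have h3 : res v p i = c p hp := by rw [← h2]
      exact (res_iff v p (hS p hp).pos i (c p hp) (hBad p hp _ (hc p hp))).1 h3 j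
    · intro h2
      have h3 : F i = c := by
        funext p hp
        rw [hF]
        refine (res_iff v p (hS p hp).pos i (c p hp) (hBad p hp _ (hc p hp))).2 (fun j => ?_)
        have h4 := h2 j p hp
        rw [dif_pos hp] at h4
        exact h4
      exact ⟨by rw [h3, hG, Finset.mem_pi]; exact hc, h3⟩
  have h2 : ∀ c ∈ G, |((s.filter (fun i => ∀ j, ∀ p ∈ S, (p : ℤ) ∣ v i j -
        (if h : p ∈ S then ((c p h j : ℕ) : ℤ) else 0))).card : ℝ) - s.card * ∏ p ∈ S, 1 / (p : ℝ) ^ r| ≤
        (q : ℝ) ^ r * E0 := by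
    intro c hc
    rw [hG, Finset.mem_pi] at hc
    have h3 := Pool.Agent.Q46.PV.vec_count s v S hS E0 hE0 hE
      (fun j p x => (p : ℤ) ∣ x - (if h : p ∈ S then ((c p h j : ℕ) : ℤ) else 0)) (by
        intro j p hp x y hxy
        constructor
        · intro h
          have := dvd_sub h hxy
          have e1 : x - (if h : p ∈ S then ((c p h j : ℕ) : ℤ) else 0) - (x - y) =
            y - (if h : p ∈ S then ((c p h j : ℕ) : ℤ) else 0) := by ring
          rwa [e1] at this
        · intro h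
          have := dvd_add h hxy
          have e1 : y - (if h : p ∈ S then ((c p h j : ℕ) : ℤ) else 0) + (x - y) =
            x - (if h : p ∈ S then ((c p h j : ℕ) : ℤ) else 0) := by ring
          rwa [e1] at this)
    have h4 : ∏ p ∈ S, ∏ j : Fin r, (((range p).filter (fun a : ℕ => (p : ℤ) ∣ (a : ℤ) -
        (if h : p ∈ S then ((c p h j : ℕ) : ℤ) else 0))).card : ℝ) / p = ∏ p ∈ S, 1 / (p : ℝ) ^ r := by
      refine prod_congr rfl fun p hp => ?_
      have h5 : ∀ j : Fin r, (((range p).filter (fun a : ℕ => (p : ℤ) ∣ (a : ℤ) -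
        (if h : p ∈ S then ((c p h j : ℕ) : ℤ) else 0))).card : ℝ) / p = 1 / p := by
        intro j
        congr 1
        have h6 : (range p).filter (fun a : ℕ => (p : ℤ) ∣ (a : ℤ) -
            (if h : p ∈ S then ((c p h j : ℕ) : ℤ) else 0)) = {c p hp j} := by
          ext a
          rw [mem_filter, mem_singleton, mem_range, dif_pos hp]
          have h7 : c p hp j < p := hBad p hp _ (hc p hp) j
          constructor
          · rintro ⟨h8, h9⟩
            have h10 : ((a : ℤ) - ((c p hp j : ℕ) : ℤ)) = 0 := by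
              apply Int.eq_zero_of_abs_lt_dvd h9
              rw [abs_lt]
              constructor <;> omega
            omega
          · rintro rfl
            exact ⟨h7, by simp⟩
        rw [h6, card_singleton, Nat.cast_one]
      rw [prod_congr rfl (fun j _ => h5 j), prod_const, card_univ, Fintype.card_fin, one_div, one_div, inv_pow]
    refine le_trans (le_of_eq ?_) h3
    rw [← h4]
    congr!
  have h3 : (s.card : ℝ) * ∏ p ∈ S, ((Bad p).card : ℝ) / (p : ℝ) ^ r =
      ∑ c ∈ G, (s.card : ℝ) * ∏ p ∈ S, 1 / (p : ℝ) ^ r := by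
    rw [sum_const, nsmul_eq_mul, hG, card_pi]
    push_cast
    have : ∏ p ∈ S, ((Bad p).card : ℝ) / (p : ℝ) ^ r =
        (∏ p ∈ S, ((Bad p).card : ℝ)) * ∏ p ∈ S, 1 / (p : ℝ) ^ r := by
      rw [← prod_mul_distrib]
      refine prod_congr rfl fun p _ => by ring
    rw [this]
    ring
  rw [h1, h3]
  push_cast
  rw [← sum_sub_distrib]
  refine (abs_sum_le_sum_abs _ _).trans ?_
  calc _ ≤ ∑ _c ∈ G, (q : ℝ) ^ r * E0 := sum_le_sum h2
    _ ≤ (q : ℝ) ^ (2 * r) * E0 := by
        rw [sum_const, nsmul_eq_mul]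
        have e1 : (G.card : ℝ) ≤ (q : ℝ) ^ r := by
          have e2 : G.card ≤ q ^ r := by
            rw [hG, card_pi, hq, ← prod_pow]
            refine prod_le_prod' fun p hp => ?_
            have e3 : Bad p ⊆ Fintype.piFinset (fun _ => range p) := by
              intro b hb
              rw [Fintype.mem_piFinset]
              exact fun j => mem_range.2 (hBad p hp b hb j)
            refine (card_le_card e3).trans ?_
            rw [Fintype.card_piFinset]
            simp
          exact_mod_cast e2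
        have e2 : (q : ℝ) ^ (2 * r) * E0 = (q : ℝ) ^ r * ((q : ℝ) ^ r * E0) := by
          rw [two_mul, pow_add]
          ring
        rw [e2]
        exact mul_le_mul_of_nonneg_right e1 (by positivity)

end Pool.Agent.Q46.SV
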